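import Pool.Agent.Helper22.Ru.Poly

/-! Packet H6: vanishing of the coefficients of small index. -/

set_option autoImplicit false

open NumberField MvPolynomial

namespace Pool.Agent.Helper22.Ru

open Pool.Agent.Helper92.Ru

/-- real estimate for the balanced exponents -/
theorem real_bound {m : ℕ} {ι : Type} [Fintype ι] (N E ε L : ℝ) (e : ι → ℝ)
    (x : Fin m → ι → ℝ) (t : Fin m → ℝ)
    (hE : ∑ i, |e i| ≤ E) (hL : 0 ≤ L) (hε : 0 ≤ ε)
    (hx0 : ∀ h i, 0 ≤ x h i) (hx1 : ∀ h i, x h i ≤ 1)
    (hbal : ∀ i, |∑ h, x h i - (m : ℝ) / N| ≤ m * ε)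
    (ht : ∀ h, L ≤ t h ∧ t h ≤ (1 + ε) * L) :
    ∑ h, ∑ i, x h i * (e i) * t h ≤ L * m * ((∑ i, e i) / N + 2 * E * ε) := by
  have hE0 : 0 ≤ E := (Finset.sum_nonneg fun i _ => abs_nonneg _).trans hE
  have h1 : ∑ h, ∑ i, x h i * (e i) * t h =
      L * ∑ i, e i * ∑ h, x h i + ∑ h, (t h - L) * ∑ i, e i * x h i := by
    rw [Finset.mul_sum]
    have : ∑ i, L * (e i * ∑ h, x h i) = ∑ h, ∑ i, L * (e i * x h i) := by
      rw [Finset.sum_comm]
      refine Finset.sum_congr rfl fun i _ => ?_
      rw [Finset.mul_sum, Finset.mul_sum]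
    rw [this, ← Finset.sum_add_distrib]
    refine Finset.sum_congr rfl fun h _ => ?_
    rw [Finset.mul_sum, ← Finset.sum_add_distrib]
    refine Finset.sum_congr rfl fun i _ => ?_
    ring
  have h2 : ∑ i, e i * ∑ h, x h i ≤ (m : ℝ) * ((∑ i, e i) / N + E * ε) := by
    have h3 : ∀ i, e i * ∑ h, x h i ≤ e i * ((m : ℝ) / N) + |e i| * (m * ε) := by
      intro i
      have h4 : e i * (∑ h, x h i - (m : ℝ) / N) ≤ |e i| * (m * ε) := by
        calc e i * (∑ h, x h i - (m : ℝ) / N) ≤ |e i * (∑ h, x h i - (m : ℝ) / N)| := le_abs_self _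
          _ = |e i| * |∑ h, x h i - (m : ℝ) / N| := abs_mul _ _
          _ ≤ |e i| * (m * ε) := by gcongr; exact hbal i
      nlinarith
    calc ∑ i, e i * ∑ h, x h i ≤ ∑ i, (e i * ((m : ℝ) / N) + |e i| * (m * ε)) :=
          Finset.sum_le_sum fun i _ => h3 i
      _ = (∑ i, e i) * ((m : ℝ) / N) + (∑ i, |e i|) * (m * ε) := by
          rw [Finset.sum_add_distrib, Finset.sum_mul, Finset.sum_mul]
      _ ≤ (∑ i, e i) * ((m : ℝ) / N) + E * (m * ε) := by gcongr
      _ = _ := by ring
  have h5 : ∑ h, (t h - L) * ∑ i, e i * x h i ≤ m * (ε * L * E) := by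
    calc ∑ h, (t h - L) * ∑ i, e i * x h i ≤ ∑ _h : Fin m, ε * L * E := by
          refine Finset.sum_le_sum fun h _ => ?_
          have h6 : ∑ i, e i * x h i ≤ E := by
            refine le_trans (Finset.sum_le_sum fun i _ => ?_) hE
            calc e i * x h i ≤ |e i| * x h i := by gcongr; exact hx0 h i; exact le_abs_self _
              _ ≤ |e i| * 1 := by gcongr; exact hx1 h i
              _ = _ := mul_one _
          have h7 : 0 ≤ t h - L := by linarith [(ht h).1]
          have h8 : t h - L ≤ ε * L := by linarith [(ht h).2]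
          calc (t h - L) * ∑ i, e i * x h i ≤ (t h - L) * E := by gcongr
            _ ≤ ε * L * E := by gcongr
      _ = _ := by simp
  rw [h1]
  calc L * ∑ i, e i * ∑ h, x h i + ∑ h, (t h - L) * ∑ i, e i * x h i
      ≤ L * ((m : ℝ) * ((∑ i, e i) / N + E * ε)) + m * (ε * L * E) := by gcongr
    _ = _ := by ring

theorem vanish (hSB : SubstBound) : Vanish := by
  intro k _ _ T ι _ _ _ A hA e he
  classical
  set N : ℝ := (Fintype.card ι : ℝ) with hNdef
  have hN : 1 ≤ N := by
    have h1 : 1 ≤ Fintype.card ι := Fintype.card_pos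
    rw [hNdef]
    exact_mod_cast h1
  set δ : ℝ := -∑ v, ∑ i, e v i with hδdef
  have hδ : 0 < δ := by rw [hδdef]; linarith
  set E : ℝ := ∑ v, ∑ i, |e v i| with hEdef
  have hE0 : 0 ≤ E := Finset.sum_nonneg fun v _ => Finset.sum_nonneg fun i _ => abs_nonneg _
  have hEv : ∀ v, ∑ i, |e v i| ≤ E := fun v =>
    Finset.single_le_sum (f := fun v => ∑ i, |e v i|)
      (fun v _ => Finset.sum_nonneg fun i _ => abs_nonneg _) (Finset.mem_univ v)
  have hEvi : ∀ v i, |e v i| ≤ E := fun v i =>
    (Finset.single_le_sum (f := fun i => |e v i|) (fun i _ => abs_nonneg _)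
      (Finset.mem_univ i)).trans (hEv v)
  set s : ℝ := (Fintype.card (SP k T) : ℝ) with hsdef
  have hs0 : 0 ≤ s := by positivity
  set ε : ℝ := min 1 (δ / (2 * N * (4 * s * E + 1))) with hεdef
  have hden : 0 < 4 * s * E + 1 := by positivity
  have hε : 0 < ε := lt_min one_pos (by positivity)
  have hε1 : ε ≤ 1 := min_le_left _ _
  have hε2 : s * (4 * E * ε) ≤ δ / (2 * N) := by
    have h1 : ε ≤ δ / (2 * N * (4 * s * E + 1)) := min_le_right _ _
    have h2 : (4 * s * E + 1) * ε ≤ δ / (2 * N) := by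
      calc (4 * s * E + 1) * ε ≤ (4 * s * E + 1) * (δ / (2 * N * (4 * s * E + 1))) := by gcongr
        _ = δ / (2 * N) := by field_simp
    nlinarith
  refine ⟨ε, ε, hε, hε, fun m C hm hC => ?_⟩
  set a : SP k T → ℝ := fun v => 1 + ∑ i, ∑ j, nS v ((A v)⁻¹ i j) with hadef
  have ha1 : ∀ v, 1 ≤ a v := fun v => by
    have : 0 ≤ ∑ i, ∑ j, nS v ((A v)⁻¹ i j) :=
      Finset.sum_nonneg fun i _ => Finset.sum_nonneg fun j _ => nS_nonneg v _
    simp only [hadef]; linarith
  have haij : ∀ v i j, nS v ((A v)⁻¹ i j) ≤ a v := fun v i j => by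
    have h1 : nS v ((A v)⁻¹ i j) ≤ ∑ j, nS v ((A v)⁻¹ i j) :=
      Finset.single_le_sum (f := fun j => nS v ((A v)⁻¹ i j)) (fun j _ => nS_nonneg v _)
        (Finset.mem_univ j)
    have h2 : ∑ j, nS v ((A v)⁻¹ i j) ≤ ∑ i, ∑ j, nS v ((A v)⁻¹ i j) :=
      Finset.single_le_sum (f := fun i => ∑ j, nS v ((A v)⁻¹ i j))
        (fun i _ => Finset.sum_nonneg fun j _ => nS_nonneg v _) (Finset.mem_univ i)
    simp only [hadef]; linarith
  set C0 : ℝ := (2 : ℝ) ^ Fintype.card ι * Fintype.card ι with hC0def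
  have hC0 : 1 ≤ C0 := by
    have h1 : (1 : ℝ) ≤ (2 : ℝ) ^ Fintype.card ι := one_le_pow₀ (by norm_num)
    calc (1 : ℝ) = 1 * 1 := by ring
      _ ≤ _ := by
        rw [hC0def]
        exact mul_le_mul h1 hN (by norm_num) (by positivity)
  set C1 : ℝ := C0 ^ 2 with hC1def
  have hC1 : 1 ≤ C1 := one_le_pow₀ hC0
  set D : SP k T → ℝ := fun v => C1 * C1 * C ^ 3 * a v with hDdef
  have hD1 : ∀ v, 1 ≤ D v := fun v => by
    have h1 : 1 ≤ C1 * C1 := one_le_mul_of_one_le_of_one_le hC1 hC1
    have h2 : 1 ≤ C1 * C1 * C ^ 3 := one_le_mul_of_one_le_of_one_le h1 (one_le_pow₀ hC)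
    exact one_le_mul_of_one_le_of_one_le h2 (ha1 v)
  set C2 : ℝ := ∏ v, D v with hC2def
  have hC2 : 1 ≤ C2 := by
    have h1 : ∏ _v : SP k T, (1 : ℝ) ≤ ∏ v, D v :=
      Finset.prod_le_prod (fun _ _ => zero_le_one) fun v _ => hD1 v
    rwa [Finset.prod_const_one] at h1
  have hlogC2 : 0 ≤ Real.log C2 := Real.log_nonneg hC2
  refine ⟨Real.exp (2 * N * Real.log C2 / δ + 1), Real.one_le_exp (by positivity), ?_⟩
  intro r R Q L P hr hQ hL ht hP hPint hPC hGood B st hB hB1 hB2 K hK
  by_contra hlt
  push Not at hlt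
  rw [Real.log_exp] at hL
  have hQ1 : ∀ h, 1 ≤ Q h := fun h => (Real.one_le_exp (by positivity)).trans (hQ h)
  have hQ0 : ∀ h, 0 < Q h := fun h => lt_of_lt_of_le one_pos (hQ1 h)
  have hL0 : 0 ≤ L := le_trans (by positivity) hL
  have hr0 : ∀ h, (0 : ℝ) < r h := fun h => by exact_mod_cast (hr h).1
  have hR1 : (1 : ℝ) ≤ R := by
    have h0 : Fin m := ⟨0, by omega⟩
    exact_mod_cast (hr h0).1.trans (hr h0).2
  set S : ℕ := ∑ h, r h with hSdef
  have hSR : (S : ℝ) ≤ m * R := by
    rw [hSdef]; push_cast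
    calc ∑ h, (r h : ℝ) ≤ ∑ _h : Fin m, (R : ℝ) :=
          Finset.sum_le_sum fun h _ => by exact_mod_cast (hr h).2
      _ = m * R := by simp
  have hc0 : coeff K (subM B P) ≠ 0 := mem_support_iff.1 hK
  have hKsum : ∀ h, ∑ i, K (h, i) = r h := fun h => mhr_subM hP B K hK h
  have hKle : ∀ h, K (h, st h) ≤ r h := fun h => by
    rw [← hKsum h]
    exact Finset.single_le_sum (f := fun i => K (h, i)) (fun i _ => Nat.zero_le _)
      (Finset.mem_univ _)
  have hcS : SInt T (coeff K (subM B P)) := by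
    refine PS.subM hB (fun J => ?_) K
    obtain ⟨α, hα⟩ := hPint J
    rw [hα]
    exact SInt.of_int α
  -- the estimate at one place
  have hmain : ∀ v, nS v (coeff K (subM B P)) ≤
      D v ^ S * Real.exp (L * m * ((∑ i, e v i) / N + 4 * E * ε)) := by
    intro v
    have hav := ha1 v
    -- coefficients of `P`
    have hPv0 : ∀ J, nS v (coeff J P) ≤ (C ^ 2) ^ S := by
      intro J
      rcases v with v | w
      · have h1 : v (coeff J P) ≤ C ^ S := hPC v J
        have hm2 : v.mult ≤ 2 := by unfold InfinitePlace.mult; split_ifs <;> omega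
        calc nS (T := T) (Sum.inl v) (coeff J P) = v (coeff J P) ^ v.mult := rfl
          _ ≤ (C ^ S) ^ v.mult := pow_le_pow_left₀ (apply_nonneg v _) h1 _
          _ ≤ (C ^ S) ^ 2 := pow_le_pow_right₀ (one_le_pow₀ hC) hm2
          _ = (C ^ 2) ^ S := by rw [← pow_mul, ← pow_mul, mul_comm]
      · obtain ⟨α, hα⟩ := hPint J
        rw [hα]
        have h1 : w.1 (α : k) ≤ 1 := by
          rw [← FinitePlace.norm_embedding_eq]
          exact FinitePlace.norm_le_one (K := k) w.1.maximalIdeal α
        exact h1.trans (one_le_pow₀ (one_le_pow₀ hC))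
    have hPv : MHr r (subM (fun _ => (A v)⁻¹) P) := mhr_subM hP _
    have step1 : ∀ J, nS v (coeff J (subM (fun _ => (A v)⁻¹) P)) ≤ (C1 * (C ^ 2 * a v)) ^ S := by
      intro J
      have h := hSB k T v m ι r P (fun _ => (A v)⁻¹) (fun _ _ => a v) (fun _ _ => 1)
        ((C ^ 2 * a v) ^ S) hP (fun _ _ => by linarith) (fun _ _ => zero_le_one)
        (by positivity) (fun h i j => by simpa using haij v i j) (by
          intro J' hJ'
          have h1 : ∏ h : Fin m, ∏ i, a v ^ J' (h, i) = a v ^ S := by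
            rw [hSdef, ← Finset.prod_pow_eq_pow_sum]
            refine Finset.prod_congr rfl fun h _ => ?_
            rw [← hP J' hJ' h, Finset.prod_pow_eq_pow_sum]
          rw [h1, mul_pow]
          gcongr
          exact hPv0 J') J
      refine h.trans (le_of_eq ?_)
      simp only [one_pow, Finset.prod_const_one, mul_one]
      rw [hC1def, mul_pow (C0 ^ 2), ← pow_mul C0, hSdef]
    -- second substitution
    have hcomp : subM (fun h => A v * B h) (subM (fun _ => (A v)⁻¹) P) = subM B P := by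
      rw [subM_comp]
      congr 1
      have : (fun h => (A v)⁻¹ * (A v * B h)) = B := by
        funext h
        rw [← Matrix.mul_assoc, Matrix.nonsing_inv_mul _ (isUnit_iff_ne_zero.2 (hA v)),
          Matrix.one_mul]
      rw [this]
    have h2 := hSB k T v m ι r (subM (fun _ => (A v)⁻¹) P) (fun h => A v * B h)
      (fun h i => Q h ^ e v i) (fun h j => if j = st h then C * Q h ^ E else 1)
      ((C1 * (C ^ 2 * a v)) ^ S * Real.exp (L * m * ((∑ i, e v i) / N + 2 * E * ε)))
      hPv (fun h i => (Real.rpow_pos_of_pos (hQ0 h) _).le)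
      (fun h i => by
        have := Real.rpow_pos_of_pos (hQ0 h) E
        split_ifs <;> positivity)
      (by positivity)
      (by
        intro h i j
        by_cases hj : j = st h
        · simp only [hj, if_true]
          have h3 : 1 ≤ Q h ^ (e v i + E) := Real.one_le_rpow (hQ1 h) (by
            have := neg_abs_le (e v i)
            have := hEvi v i
            linarith)
          calc nS v ((A v * B h) i (st h)) ≤ C := hB2 h v i
            _ = C * 1 := (mul_one C).symm
            _ ≤ C * Q h ^ (e v i + E) := by gcongr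
            _ = Q h ^ e v i * (C * Q h ^ E) := by rw [Real.rpow_add (hQ0 h)]; ring
        · simp only [hj, if_false, mul_one]
          exact hB1 h v i j hj)
      (by
        intro J hJ
        have h3 : ∏ h, ∏ i, (Q h ^ e v i) ^ J (h, i) ≤
            Real.exp (L * m * ((∑ i, e v i) / N + 2 * E * ε)) := by
          have h4 : ∏ h, ∏ i, (Q h ^ e v i) ^ J (h, i) =
              Real.exp (∑ h, ∑ i, ((J (h, i) : ℝ) / (r h : ℝ)) * (e v i) *
                ((r h : ℝ) * Real.log (Q h))) := by
            rw [Real.exp_sum]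
            refine Finset.prod_congr rfl fun h _ => ?_
            rw [Real.exp_sum]
            refine Finset.prod_congr rfl fun i _ => ?_
            rw [Real.rpow_def_of_pos (hQ0 h), ← Real.exp_nat_mul]
            congr 1
            have := (hr0 h).ne'
            field_simp
          rw [h4]
          refine Real.exp_le_exp.2 (real_bound N E ε L (e v) _ _ (hEv v) hL0 hε.le
            (fun h i => by have := hr0 h; positivity) (fun h i => ?_) (hGood v J hJ) ht)
          rw [div_le_one (hr0 h)]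
          have : J (h, i) ≤ r h := by
            rw [← hPv J hJ h]
            exact Finset.single_le_sum (f := fun i => J (h, i)) (fun i _ => Nat.zero_le _)
              (Finset.mem_univ _)
          exact_mod_cast this
        have h5 : 0 ≤ ∏ h, ∏ i, (Q h ^ e v i) ^ J (h, i) :=
          Finset.prod_nonneg fun h _ => Finset.prod_nonneg fun i _ =>
            pow_nonneg (Real.rpow_pos_of_pos (hQ0 h) _).le _
        exact mul_le_mul (step1 J) h3 h5 (by positivity)) K
    rw [hcomp] at h2
    have h6 : ∏ h, ∏ i, (if i = st h then C * Q h ^ E else 1) ^ K (h, i) ≤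
        C ^ S * Real.exp (2 * E * L * (m * ε)) := by
      have h7 : ∀ h, ∏ i, (if i = st h then C * Q h ^ E else 1) ^ K (h, i) ≤
          C ^ r h * Real.exp (2 * E * L * ((K (h, st h) : ℝ) / (r h : ℝ))) := by
        intro h
        rw [Finset.prod_eq_single (st h) (fun i _ hi => by simp [hi]) (by simp)]
        simp only [if_true]
        rw [mul_pow, Real.rpow_def_of_pos (hQ0 h), ← Real.exp_nat_mul]
        refine mul_le_mul (pow_le_pow_right₀ hC (hKle h)) (Real.exp_le_exp.2 ?_)
          (Real.exp_pos _).le (by positivity)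
        have h8 : (r h : ℝ) * Real.log (Q h) ≤ 2 * L := by
          have := (ht h).2
          nlinarith
        have h9 : (K (h, st h) : ℝ) * (Real.log (Q h) * E) =
            E * ((K (h, st h) : ℝ) / (r h : ℝ)) * ((r h : ℝ) * Real.log (Q h)) := by
          have := (hr0 h).ne'
          field_simp
        rw [h9]
        calc E * ((K (h, st h) : ℝ) / (r h : ℝ)) * ((r h : ℝ) * Real.log (Q h))
            ≤ E * ((K (h, st h) : ℝ) / (r h : ℝ)) * (2 * L) := by
              have := hr0 h
              gcongr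
          _ = _ := by ring
      calc ∏ h, ∏ i, (if i = st h then C * Q h ^ E else 1) ^ K (h, i)
          ≤ ∏ h, (C ^ r h * Real.exp (2 * E * L * ((K (h, st h) : ℝ) / (r h : ℝ)))) := by
            refine Finset.prod_le_prod (fun h _ => Finset.prod_nonneg fun i _ => ?_)
              fun h _ => h7 h
            have := Real.rpow_pos_of_pos (hQ0 h) E
            split_ifs <;> positivity
        _ = C ^ S * Real.exp (2 * E * L * ∑ h, ((K (h, st h) : ℝ) / (r h : ℝ))) := by
            rw [Finset.prod_mul_distrib, Finset.prod_pow_eq_pow_sum, ← Real.exp_sum,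
              ← Finset.mul_sum]
        _ ≤ C ^ S * Real.exp (2 * E * L * (m * ε)) := by
            gcongr
    calc nS v (coeff K (subM B P)) ≤ _ := h2
      _ ≤ C0 ^ (2 * S) *
          ((C1 * (C ^ 2 * a v)) ^ S * Real.exp (L * m * ((∑ i, e v i) / N + 2 * E * ε))) *
          (C ^ S * Real.exp (2 * E * L * (m * ε))) := by
          refine mul_le_mul_of_nonneg_left h6 (by positivity)
      _ = (C1 * (C1 * (C ^ 2 * a v)) * C) ^ S *
          (Real.exp (L * m * ((∑ i, e v i) / N + 2 * E * ε)) *
            Real.exp (2 * E * L * (m * ε))) := by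
          have h8 : C0 ^ (2 * S) = C1 ^ S := by rw [hC1def, ← pow_mul]
          rw [h8, mul_pow _ C, mul_pow C1 (C1 * (C ^ 2 * a v))]; ring
      _ = D v ^ S * Real.exp (L * m * ((∑ i, e v i) / N + 4 * E * ε)) := by
          rw [← Real.exp_add]
          have h8 : C1 * (C1 * (C ^ 2 * a v)) * C = D v := by simp only [hDdef]; ring
          have h9 : L * m * ((∑ i, e v i) / N + 2 * E * ε) + 2 * E * L * (m * ε) =
              L * m * ((∑ i, e v i) / N + 4 * E * ε) := by ring
          rw [h8, h9]
  have hprod : ∏ v : SP k T, nS v (coeff K (subM B P)) ≤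
      C2 ^ S * Real.exp (L * m * (-δ / N + s * (4 * E * ε))) := by
    calc ∏ v : SP k T, nS v (coeff K (subM B P)) ≤
        ∏ v, (D v ^ S * Real.exp (L * m * ((∑ i, e v i) / N + 4 * E * ε))) :=
          Finset.prod_le_prod (fun v _ => nS_nonneg v _) fun v _ => hmain v
      _ = C2 ^ S * Real.exp (∑ v, L * m * ((∑ i, e v i) / N + 4 * E * ε)) := by
          rw [Finset.prod_mul_distrib, Finset.prod_pow, Real.exp_sum]
      _ = _ := by
          congr 2
          rw [← Finset.mul_sum, Finset.sum_add_distrib, ← Finset.sum_div, hδdef]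
          simp [hsdef]
  have hm1 : (1 : ℝ) ≤ m := by exact_mod_cast hm
  have hlt1 : C2 ^ S * Real.exp (L * m * (-δ / N + s * (4 * E * ε))) < 1 := by
    have hC2pos : 0 < C2 := by linarith
    have h1 : C2 ^ S = Real.exp (S * Real.log C2) := by
      rw [Real.exp_nat_mul, Real.exp_log hC2pos]
    rw [h1, ← Real.exp_add, Real.exp_lt_one_iff]
    have hLm : 0 ≤ L * m := by positivity
    have h2 : L * m * (-δ / N + s * (4 * E * ε)) ≤ L * m * (-(δ / (2 * N))) := by
      refine mul_le_mul_of_nonneg_left ?_ hLm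
      have : δ / N = 2 * (δ / (2 * N)) := by field_simp
      have h3 : -δ / N = -(δ / N) := by ring
      rw [h3, this]
      linarith
    have h4 : (S : ℝ) * Real.log C2 ≤ m * R * Real.log C2 := by gcongr
    have h5 : R * Real.log C2 < L * (δ / (2 * N)) := by
      have h6 : R * (2 * N * Real.log C2 / δ + 1) * (δ / (2 * N)) ≤ L * (δ / (2 * N)) := by
        have : 0 < δ / (2 * N) := by positivity
        gcongr
      have h7 : R * (2 * N * Real.log C2 / δ + 1) * (δ / (2 * N)) =
          R * Real.log C2 + R * (δ / (2 * N)) := by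
        field_simp
      have h8 : 0 < R * (δ / (2 * N)) := by positivity
      linarith
    have h9 : m * (R * Real.log C2) < m * (L * (δ / (2 * N))) := by gcongr
    nlinarith
  have hge := one_le_prod_nS hcS hc0
  linarith

end Pool.Agent.Helper22.Ru
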