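import Pool.Agent.Helper92.Ru.GoalsH

/-! Multihomogeneity and S-integrality of substituted polynomials; composition of substitutions. -/

set_option autoImplicit false

open NumberField MvPolynomial

namespace Pool.Agent.Helper22.Ru

open Pool.Agent.Helper92.Ru

section poly

variable {A : Type} [CommRing A] {m : ℕ} {ι : Type} [Fintype ι]

theorem subM_eq (M : Fin m → Matrix ι ι A) (f : MvPolynomial (Fin m × ι) A) :
    subM M f = ∑ J ∈ f.support,
      C (coeff J f) * ∏ p, (∑ j, C (M p.1 p.2 j) * X (p.1, j)) ^ J p := by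
  rw [subM, aeval_def, eval₂_eq']
  rfl

theorem weight_block (h : Fin m) (e : Fin m × ι →₀ ℕ) :
    Finsupp.weight (fun p : Fin m × ι => if p.1 = h then 1 else 0) e = ∑ i, e (h, i) := by
  rw [Finsupp.weight_apply, Finsupp.sum_fintype _ _ (by simp), Fintype.sum_prod_type,
    Finset.sum_eq_single h]
  · simp
  · intro b _ hb; simp [hb]
  · simp

theorem mhr_iff (r : Fin m → ℕ) (f : MvPolynomial (Fin m × ι) A) :
    MHr r f ↔ ∀ h, IsWeightedHomogeneous
      (fun p : Fin m × ι => if p.1 = h then 1 else 0) f (r h) := by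
  constructor
  · intro hf h d hd
    rw [weight_block]
    exact hf d (mem_support_iff.2 hd) h
  · intro hf e he h
    rw [← weight_block]
    exact hf h (mem_support_iff.1 he)

theorem mhr_subM {r : Fin m → ℕ} {f : MvPolynomial (Fin m × ι) A} (hf : MHr r f)
    (M : Fin m → Matrix ι ι A) : MHr r (subM M f) := by
  rw [mhr_iff] at hf ⊢
  intro h
  rw [subM_eq]
  refine IsWeightedHomogeneous.sum _ _ _ fun J hJ => ?_
  refine IsWeightedHomogeneous.C_mul ?_ _
  have h1 : IsWeightedHomogeneous (fun p : Fin m × ι => if p.1 = h then 1 else 0)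
      (∏ p, (∑ j, C (M p.1 p.2 j) * X (p.1, j)) ^ J p : MvPolynomial (Fin m × ι) A)
      (∑ p, J p • (if p.1 = h then 1 else 0)) := by
    refine IsWeightedHomogeneous.prod _ _ _ fun p _ => ?_
    refine IsWeightedHomogeneous.pow ?_ _
    refine IsWeightedHomogeneous.sum _ _ _ fun j _ => ?_
    exact IsWeightedHomogeneous.C_mul (isWeightedHomogeneous_X _ _ (p.1, j)) _
  have h2 : (∑ p, J p • (if p.1 = h then 1 else 0)) = r h := by
    rw [← hf h (mem_support_iff.1 hJ), Finsupp.weight_apply, Finsupp.sum_fintype _ _ (by simp)]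
  rwa [h2] at h1

theorem subM_comp (M M' : Fin m → Matrix ι ι A) (f : MvPolynomial (Fin m × ι) A) :
    subM M (subM M' f) = subM (fun h => M' h * M h) f := by
  have h : (subM M).comp (subM M') = subM (fun h => M' h * M h) := by
    refine MvPolynomial.algHom_ext fun p => ?_
    simp only [AlgHom.comp_apply, subM, aeval_X, map_sum, map_mul, algHom_C, algebraMap_eq]
    simp only [Matrix.mul_apply, map_sum, map_mul, Finset.mul_sum, Finset.sum_mul]
    rw [Finset.sum_comm]
    refine Finset.sum_congr rfl fun i _ => Finset.sum_congr rfl fun j _ => ?_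
    ring
  rw [← h]; rfl

end poly

section sint

variable {k : Type} [Field k] [NumberField k] {T : Finset (FinitePlace k)}

/-- all coefficients are `S`-integers -/
def PS (T : Finset (FinitePlace k)) {σ : Type} (f : MvPolynomial σ k) : Prop :=
  ∀ e, SInt T (coeff e f)

variable {σ : Type}

theorem PS.add {f g : MvPolynomial σ k} (hf : PS T f) (hg : PS T g) : PS T (f + g) := fun e => by
  rw [coeff_add]; exact (hf e).add (hg e)

theorem PS.mul {f g : MvPolynomial σ k} (hf : PS T f) (hg : PS T g) : PS T (f * g) := fun e => by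
  classical
  rw [coeff_mul]
  exact SInt.sum fun p _ => (hf _).mul (hg _)

theorem PS.C {x : k} (hx : SInt T x) : PS T (MvPolynomial.C x : MvPolynomial σ k) := fun e => by
  classical
  rw [coeff_C]
  split_ifs
  · exact hx
  · exact SInt.zero

theorem PS.X (i : σ) : PS T (MvPolynomial.X i : MvPolynomial σ k) := fun e => by
  classical
  rw [coeff_X]
  split_ifs
  · exact SInt.one
  · exact SInt.zero

theorem PS.one : PS T (1 : MvPolynomial σ k) := by
  have := PS.C (σ := σ) (SInt.one (T := T))
  simpa using this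

theorem PS.pow {f : MvPolynomial σ k} (hf : PS T f) (n : ℕ) : PS T (f ^ n) := by
  induction n with
  | zero => simpa using PS.one
  | succ n ih => rw [pow_succ]; exact ih.mul hf

theorem PS.sum {α : Type} {s : Finset α} {f : α → MvPolynomial σ k}
    (h : ∀ i ∈ s, PS T (f i)) : PS T (∑ i ∈ s, f i) := fun e => by
  rw [coeff_sum]; exact SInt.sum fun i hi => h i hi e

theorem PS.prod {α : Type} {s : Finset α} {f : α → MvPolynomial σ k}
    (h : ∀ i ∈ s, PS T (f i)) : PS T (∏ i ∈ s, f i) := by
  classical
  induction s using Finset.induction_on with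
  | empty => simpa using PS.one
  | insert a s ha ih =>
    rw [Finset.prod_insert ha]
    exact (h a (by simp)).mul (ih fun i hi => h i (by simp [hi]))

theorem PS.subM {m : ℕ} {ι : Type} [Fintype ι] {M : Fin m → Matrix ι ι k}
    (hM : ∀ h i j, SInt T (M h i j)) {f : MvPolynomial (Fin m × ι) k} (hf : PS T f) :
    PS T (subM M f) := by
  rw [subM_eq]
  refine PS.sum fun J _ => (PS.C (hf J)).mul ?_
  exact PS.prod fun p _ => (PS.sum fun j _ => (PS.C (hM _ _ _)).mul (PS.X _)).pow _

end sint

end Pool.Agent.Helper22.Ru
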